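import Pool.Agent.H14.Fre.FIN

/-!
# A Fréchet–Urysohn topological group with non-Fréchet–Urysohn square, in ZFC

The group is the free abelian group on `ℕ × ω₁ × {0, 1}` with the coarsest group topology making
a certain norm and the homomorphisms `w δ` (`δ < ω₁`) continuous; `w δ` is defined with the
oscillation function of the lower traces of walks on `ω₁`. Written multiplicatively.
-/

namespace Pool.Agent.Results.MP_abadeb_gt.FrechetSquare

/-- There is a Hausdorff (commutative) topological group `G` which is Fréchet–Urysohn and whose
square `G × G`, with the product topology, is not Fréchet–Urysohn. -/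
theorem result : ∃ (G : Type) (_ : CommGroup G) (_ : TopologicalSpace G),
    IsTopologicalGroup G ∧ T2Space G ∧ FrechetUrysohnSpace G ∧ ¬ FrechetUrysohnSpace (G × G) :=
  Pool.Agent.H14.Fre.final

end Pool.Agent.Results.MP_abadeb_gt.FrechetSquare
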